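import Mathlib

set_option autoImplicit false

namespace Pool.Agent.Results.MP_856f66_gt.Iff

open Set Metric UniformSpace IsUltrametricDist Filter Topology

/-- The closed balls of strictly positive radius. -/
def B0 (X : Type*) [MetricSpace X] := {A : Set X // ∃ c r, 0 < r ∧ A = closedBall c r}

/-- The spaces of positive-radius balls are isometric for the Hausdorff distance. -/
def Iso (X Y : Type*) [MetricSpace X] [MetricSpace Y] : Prop :=
  ∃ e : B0 X ≃ B0 Y, ∀ A B, hausdorffDist (e A).1 (e B).1 = hausdorffDist A.1 B.1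

variable {X Y Z : Type*} [MetricSpace X] [MetricSpace Y] [MetricSpace Z]

lemma Iso.symm (h : Iso X Y) : Iso Y X :=
  let ⟨e, h⟩ := h; ⟨e.symm, fun A B => by simp [← h]⟩

lemma Iso.trans (h : Iso X Y) (k : Iso Y Z) : Iso X Z :=
  let ⟨e, h⟩ := h; let ⟨f, k⟩ := k; ⟨e.trans f, fun A B => by simp [h, k]⟩

lemma dense [IsUltrametricDist Y] {i : X → Y} (hi : Isometry i) (hd : DenseRange i) : Iso Y X := by
  have k : ∀ B : B0 Y, closure (i '' (i ⁻¹' B.1)) = B.1 := by
    rintro ⟨_, c, r, h, rfl⟩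
    rw [image_preimage_eq_inter_range]
    exact (closure_minimal inter_subset_left isClosed_closedBall).antisymm
      (hd.open_subset_closure_inter (isOpen_closedBall c h.ne'))
  let e : B0 Y → B0 X := fun B => ⟨i ⁻¹' B.1, by
    obtain ⟨_, c, r, h, rfl⟩ := B
    obtain ⟨x, hx⟩ := hd.exists_dist_lt c h
    exact ⟨x, r, h, by
      rw [← hi.preimage_closedBall, ← closedBall_eq_of_mem (mem_closedBall'.2 hx.le)]⟩⟩
  refine ⟨.ofBijective e ⟨fun A B h => Subtype.ext ?_, ?_⟩, fun A B => ?_⟩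
  · rw [← k A, ← k B, show i ⁻¹' A.1 = i ⁻¹' B.1 from congrArg Subtype.val h]
  · rintro ⟨_, c, r, h, rfl⟩
    exact ⟨⟨_, i c, r, h, rfl⟩, Subtype.ext (hi.preimage_closedBall c r)⟩
  · rw [← k A, ← k B, hausdorffDist_closure, hausdorffDist_image hi]; rfl

lemma B0.ne (A : B0 X) : A.1.Nonempty :=
  let ⟨c, _, h, e⟩ := A.2; ⟨c, e ▸ mem_closedBall_self h.le⟩

lemma B0.bd (A : B0 X) : Bornology.IsBounded A.1 :=
  let ⟨_, _, _, e⟩ := A.2; e ▸ isBounded_closedBall

/-- Hausdorff distance. -/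
noncomputable abbrev D (A B : B0 X) : ℝ := hausdorffDist A.1 B.1

lemma fin (A B : B0 X) : hausdorffEDist A.1 B.1 ≠ ⊤ :=
  hausdorffEDist_ne_top_of_nonempty_of_bounded A.ne B.ne A.bd B.bd

lemma pt {A B : B0 X} {a b : X} (ha : a ∈ A.1) (hb : b ∈ B.1) :
    dist a b ≤ D A B + diam B.1 ∧ D A B ≤ diam A.1 + dist a b + diam B.1 :=
  ⟨(dist_le_infDist_add_diam B.bd hb).trans
    (by gcongr; exact infDist_le_hausdorffDist_of_mem ha (fin A B)),
   (hausdorffDist_le_diam A.ne A.bd B.ne B.bd).trans (diam_union ha hb)⟩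

/-- Approximate correspondence of points. -/
def Rel (e : B0 X ≃ B0 Y) (x : X) (y : Y) : Prop :=
  ∀ ε > 0, ∃ A, diam A.1 ≤ ε ∧ ∃ a ∈ A.1, ∃ b ∈ (e A).1, dist x a ≤ ε ∧ dist y b ≤ ε

lemma tot [CompleteSpace Y] (e : B0 X ≃ B0 Y) (h : ∀ A B, D (e A) (e B) = D A B)
    (d : ∀ A, diam (e A).1 = diam A.1) (x : X) : ∃ y, Rel e x y := by
  let A : ℕ → B0 X := fun n => ⟨_, x, (1 / 2) ^ n, by positivity, rfl⟩
  have a : ∀ n, x ∈ (A n).1 := fun n => mem_closedBall_self (by positivity)
  have c : ∀ n, diam (A n).1 ≤ 2 * (1 / 2) ^ n := fun n => diam_closedBall (by positivity)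
  choose y hy using fun n => (e (A n)).ne
  obtain ⟨z, hz⟩ := cauchySeq_tendsto_of_complete (cauchySeq_of_le_geometric (1 / 2) 4 (f := y)
    (by norm_num) fun n => by
      have := (pt (hy n) (hy (n + 1))).1
      have := (pt (a n) (a (n + 1))).2
      have := c n
      have := c (n + 1)
      simp only [h, d, dist_self, pow_succ] at *
      linarith)
  refine ⟨z, fun ε p => ?_⟩
  obtain ⟨n, n1, n2⟩ := (((tendsto_pow_atTop_nhds_zero_of_lt_one (r := (1 / 2 : ℝ)) (by norm_num)
    (by norm_num)).eventually (gt_mem_nhds (half_pos p))).and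
    (hz.eventually (closedBall_mem_nhds z p))).exists
  exact ⟨A n, by linarith [c n], x, a n, _, hy n, by simp [p.le], mem_closedBall'.1 n2⟩

lemma pts [CompleteSpace X] [CompleteSpace Y] (e : B0 X ≃ B0 Y)
    (h : ∀ A B, D (e A) (e B) = D A B) (d : ∀ A, diam (e A).1 = diam A.1) : Nonempty (X ≃ᵢ Y) := by
  have k : ∀ x y x' y', Rel e x y → Rel e x' y' → dist y y' = dist x x' := by
    intro x y x' y' r r'
    refine eq_of_forall_dist_le fun ε p => ?_
    obtain ⟨A, a1, a, a2, b, a3, a4, a5⟩ := r (ε / 7) (by positivity)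
    obtain ⟨B, b1, a', b2, b', b3, b4, b5⟩ := r' (ε / 7) (by positivity)
    have p1 := pt a2 b2
    have p2 := pt a3 b3
    rw [h, d, d] at p2
    have p3 := dist_dist_dist_le x x' a a'
    have p4 := dist_dist_dist_le y y' b b'
    rw [Real.dist_eq, abs_le] at *
    constructor <;> linarith [p1.1, p1.2, p2.1, p2.2, p3.1, p3.2, p4.1, p4.2]
  choose F hF using tot e h d
  refine ⟨.mk (.ofBijective F ⟨fun x x' e => ?_, fun y => ?_⟩)
    (.of_dist_eq fun x x' => k _ _ _ _ (hF x) (hF x'))⟩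
  · exact dist_eq_zero.1 (by rw [← k _ _ _ _ (hF x) (hF x'), e, dist_self])
  · obtain ⟨x, hx⟩ := tot e.symm (fun A B => by simp [← h]) (fun A => by simp [← d]) y
    refine ⟨x, dist_eq_zero.1 ((k x _ x y (hF x) fun ε p => ?_).trans (dist_self x))⟩
    obtain ⟨A, a1, a, a2, b, a3, a4, a5⟩ := hx ε p
    exact ⟨e.symm A, by simpa [← d] using a1, b, a3, a, by simpa using a2, a5, a4⟩

lemma swap {M : Type*} (r : Setoid M) (P Q : M → Prop) (p1 : ∀ a b, r a b → P a → P b → a = b)
    (q1 : ∀ a b, r a b → Q a → Q b → a = b) (pq : ∀ a, P a → ∃ b, r b a ∧ Q b)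
    (qp : ∀ a, Q a → ∃ b, r b a ∧ P b) : ∃ s : M ≃ M, ∀ a, r (s a) a ∧ (P (s a) ↔ Q a) := by
  classical
  choose! q q2 q3 using pq
  choose! p p2 p3 using qp
  let s := fun a => if Q a then p a else if P a then q a else a
  refine ⟨Function.Involutive.toPerm s fun a => ?_, fun a => ?_⟩
  · by_cases h : Q a
    · by_cases k : Q (p a)
      · simp only [s, h, if_true, q1 _ _ (p2 a h) k h]
      · simp only [s, h, if_true, k, if_false, p3 a h]
        exact q1 _ _ (r.trans (q2 _ (p3 a h)) (p2 a h)) (q3 _ (p3 a h)) h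
    · by_cases k : P a
      · simp only [s, h, if_true, k, if_false, q3 a k]
        exact p1 _ _ (r.trans (p2 _ (q3 a k)) (q2 a k)) (p3 _ (q3 a k)) k
      · simp only [s, h, k, if_false]
  · show r (s a) a ∧ (P (s a) ↔ Q a)
    by_cases h : Q a
    · simp only [s, h, if_true, p2 a h, p3 a h, and_self]
    · by_cases k : P a
      · simp only [s, h, if_true, k, if_false, q2 a k, true_and, iff_false]
        exact fun n => h (p1 _ _ (q2 a k) n k ▸ q3 a k)
      · simp only [s, h, k, if_false, r.refl a, and_self]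

/-- `B` is a nearest neighbour of `A`. -/
def Near (A B : B0 X) : Prop := B ≠ A ∧ ∀ C ≠ A, D A B ≤ D A C

variable [IsUltrametricDist X]

lemma um {S : Set X} {c : X} {t : ℝ} (h : ∀ p ∈ S, dist p c ≤ t) (t0 : 0 ≤ t) : diam S ≤ t :=
  diam_le_of_forall_dist_le t0 fun p hp q hq =>
    (IsUltrametricDist.dist_triangle_max p c q).trans (max_le (h p hp) (dist_comm c q ▸ h q hq))

lemma dd {A B : B0 X} (h : A ≠ B) : D A B = diam (A.1 ∪ B.1) := by
  refine (hausdorffDist_le_diam A.ne A.bd B.ne B.bd).antisymm ?_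
  wlog k : ¬A.1 ⊆ B.1 generalizing A B
  · rw [union_comm, hausdorffDist_comm]
    exact this h.symm fun n => h (Subtype.ext ((not_not.1 k).antisymm n))
  obtain ⟨a, ha, k⟩ := not_subset.1 k
  obtain ⟨c, r, r0, e⟩ := B.2
  have m : ∀ p ∈ A.1, p ∉ B.1 → dist p c ≤ D A B := fun p hp n =>
    le_trans ((le_infDist B.ne).2 fun b hb => by
      rw [e] at hb n
      exact (le_max_iff.1 (IsUltrametricDist.dist_triangle_max p b c)).resolve_right
        (hb.trans_lt (not_le.1 n)).not_ge) (infDist_le_hausdorffDist_of_mem hp (fin A B))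
  refine um (c := c) (fun p hp => (em (p ∈ B.1)).elim (fun n => ?_) fun n =>
    m p (hp.resolve_right n) n) hausdorffDist_nonneg
  have := m a ha k
  rw [e] at k n
  exact (n.trans (not_le.1 k).le).trans this

lemma du (A B C : B0 X) : D A C ≤ max (D A B) (D B C) := by
  by_cases h1 : A = B
  · simp [h1]
  by_cases h2 : B = C
  · simp [h2]
  obtain ⟨b, hb⟩ := B.ne
  refine (hausdorffDist_le_diam A.ne A.bd C.ne C.bd).trans (um (c := b) ?_
    (le_max_of_le_left hausdorffDist_nonneg))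
  rw [dd h1, dd h2]
  rintro p (hp | hp)
  exacts [le_max_of_le_left (dist_le_diam_of_mem (A.bd.union B.bd) (.inl hp) (.inr hb)),
    le_max_of_le_right (dist_le_diam_of_mem (B.bd.union C.bd) (.inr hp) (.inl hb))]

lemma dl {A B : B0 X} (h : A ≠ B) : diam A.1 ≤ D A B :=
  dd h ▸ diam_mono subset_union_left (A.bd.union B.bd)

lemma bl (A : B0 X) {a : X} (ha : a ∈ A.1) : A.1 = closedBall a (diam A.1) := by
  refine Subset.antisymm (fun b hb => dist_le_diam_of_mem A.bd hb ha) ?_
  obtain ⟨_, c, r, r0, rfl⟩ := A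
  exact (closedBall_subset_closedBall (um (fun _ k => k) r0.le)).trans (closedBall_eq_of_mem ha).ge

lemma n1 {A : B0 X} (h : 0 < diam A.1) : ∃ B, Near A B ∧ D A B = diam A.1 := by
  obtain ⟨a, ha⟩ := A.ne
  let B : B0 X := ⟨_, a, _, half_pos h, rfl⟩
  have n : B ≠ A := fun k => by
    have : diam B.1 ≤ diam A.1 / 2 := um (fun _ k => k) (half_pos h).le
    rw [k] at this
    linarith
  have k : D A B = diam A.1 := by
    rw [dd n.symm, union_eq_left.2
      ((closedBall_subset_closedBall (half_le_self h.le)).trans (bl A ha).ge)]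
  exact ⟨B, ⟨n, fun C hC => k ▸ dl hC.symm⟩, k⟩

lemma n2 {A B : B0 X} (h : 0 < diam A.1) (k : Near A B) : D A B = diam A.1 :=
  let ⟨_, c, e⟩ := n1 h; (e ▸ k.2 _ c.1).antisymm (dl k.1.symm)

/-- Twins. -/
def tw (X : Type*) [MetricSpace X] [IsUltrametricDist X] : Setoid (B0 X) where
  r A B := A = B ∨ Near A B ∧ Near B A
  iseqv := ⟨fun _ => .inl rfl, fun h => h.imp .symm .symm, by
    rintro A B C (rfl | h) k
    · exact k
    rcases k with rfl | k
    · exact .inr h
    refine or_iff_not_imp_left.2 fun n => ?_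
    have e : D A B = D B C := by
      rw [D, hausdorffDist_comm]; exact (h.2.2 _ k.1.1).antisymm (k.1.2 _ h.2.1)
    have u := du A B C
    refine ⟨⟨.symm n, fun E hE => (u.trans_eq (by rw [← e, max_self])).trans (h.1.2 E hE)⟩,
      n, fun E hE => le_trans ?_ (k.2.2 E hE)⟩
    rw [e, max_self] at u
    rwa [D, D, hausdorffDist_comm, hausdorffDist_comm (s := C.1)]⟩

lemma t1 (A B : B0 X) (h : tw X A B) (a : 0 < diam A.1) (b : 0 < diam B.1) : A = B := by
  refine h.elim id fun h => Subtype.ext ?_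
  have k : ∀ A B : B0 X, 0 < diam A.1 → Near A B → B.1 ⊆ A.1 := fun A B a h p hp => by
    obtain ⟨c, hc⟩ := A.ne
    rw [bl A hc, ← n2 a h, dd h.1.symm]
    exact dist_le_diam_of_mem (A.bd.union B.bd) (.inr hp) (.inl hc)
  exact (k B A b h.2).antisymm (k A B a h.1)

lemma t2 {A B : B0 X} (h : Near A B) : ∃ N, tw X N A ∧ 0 < diam N.1 := by
  rcases (diam_nonneg (s := A.1)).eq_or_lt with z | z
  swap
  · exact ⟨A, .inl rfl, z⟩
  obtain ⟨a, ha⟩ := A.ne
  have e := bl A ha
  rw [← z, closedBall_zero] at e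
  have p : 0 < D A B := hausdorffDist_nonneg.lt_of_ne' fun k => h.1 (Subtype.ext (by
    have c : ∀ A : B0 X, IsClosed A.1 := fun A =>
      let ⟨_, _, _, e⟩ := A.2; e ▸ isClosed_closedBall
    exact (((c A).hausdorffDist_zero_iff_eq (c B) (fin A B)).1 k).symm))
  let N : B0 X := ⟨_, a, _, p, rfl⟩
  have s : A.1 ∪ B.1 ⊆ N.1 := fun q hq => (dist_le_diam_of_mem (A.bd.union B.bd) hq
    (.inl ha)).trans_eq (dd h.1.symm).symm
  have d : diam N.1 = D A B :=
    (um (fun _ k => k) p.le).antisymm ((dd h.1.symm).trans_le (diam_mono s N.bd))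
  have n : N ≠ A := fun k => by rw [k, ← z] at d; exact p.ne d
  have k : D N A = D A B := by rw [dd n, union_eq_left.2 (subset_union_left.trans s), d]
  exact ⟨N, .inr ⟨⟨n.symm, fun C hC => k ▸ d ▸ dl hC.symm⟩, n, fun C hC => by
    rw [D, hausdorffDist_comm]; exact k.trans_le (h.2 C hC)⟩, d ▸ p⟩

lemma t3 {A B C : B0 X} (h : tw X A B) (a : C ≠ A) (b : C ≠ B) : D A C = D B C := by
  have k : ∀ A B : B0 X, Near B A → C ≠ B → D A C ≤ D B C := fun A B h b =>
    (du A B C).trans (max_le (by rw [D, hausdorffDist_comm]; exact h.2 C b) le_rfl)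
  rcases h with rfl | h
  exacts [rfl, (k A B h.2 b).antisymm (k B A h.1 a)]

lemma t4 {A A' B B' : B0 X} (h : tw X A A') (k : tw X B B') (n : A ≠ B) (n' : A' ≠ B') :
    D A B = D A' B' := by
  have c : ∀ A B : B0 X, D A B = D B A := fun _ _ => hausdorffDist_comm
  by_cases e : B = A'
  · subst e
    by_cases e : B' = A
    · rw [e, c]
    · rw [t3 ((tw X).trans h k) n.symm n', c]
  · rw [t3 h n.symm e, c, t3 k (Ne.symm e) n', c]

lemma back [IsUltrametricDist Y] [CompleteSpace X] [CompleteSpace Y] (h : Iso X Y) :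
    Nonempty (X ≃ᵢ Y) := by
  obtain ⟨e, h⟩ := h
  have ne : ∀ e : B0 X ≃ B0 Y, (∀ A B, D (e A) (e B) = D A B) →
      ∀ A B, Near (e A) (e B) ↔ Near A B := fun e h A B => by
    simp only [Near, e.surjective.forall, h, ne_eq, e.injective.eq_iff]
  have te : ∀ A B, tw Y (e A) (e B) ↔ tw X A B := fun A B =>
    or_congr e.injective.eq_iff (and_congr (ne e h _ _) (ne e h _ _))
  obtain ⟨s, hs⟩ := swap (tw Y) (fun A => 0 < diam A.1) (fun A => 0 < diam (e.symm A).1) t1
    (fun A B r a b => e.symm.injective (t1 _ _ (by simpa [← te] using r) a b))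
    (fun A a => by
      obtain ⟨B, b, -⟩ := n1 a
      obtain ⟨N, m, k⟩ := t2 ((ne e h (e.symm A) (e.symm B)).1 (by simpa using b))
      exact ⟨e N, by simpa [← te] using m, by simpa using k⟩)
    fun A a => by
      obtain ⟨B, b, -⟩ := n1 a
      simpa using t2 ((ne e h _ _).2 b)
  have h' : ∀ A B, D (e.trans s A) (e.trans s B) = D A B := fun A B => by
    by_cases k : A = B
    · simp [k]
    · exact (t4 (hs _).1 (hs _).1 ((e.trans s).injective.ne k) (e.injective.ne k)).trans (h A B)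
  refine pts (e.trans s) h' fun A => ?_
  have p : 0 < diam (e.trans s A).1 ↔ 0 < diam A.1 := by simpa using (hs (e A)).2
  rcases (diam_nonneg (s := A.1)).eq_or_lt with z | z
  · exact (not_lt.1 fun k => (p.1 k).ne z).antisymm diam_nonneg |>.trans z
  · obtain ⟨B, b, k⟩ := n1 z
    rw [← n2 (p.2 z) ((ne _ h' _ _).2 b), h', k]

lemma cu : IsUltrametricDist (Completion X) :=
  ⟨fun x y z => Completion.induction_on₃ x y z (isClosed_le (by fun_prop) (by fun_prop))
    fun a b c => by simpa only [Completion.dist_eq] using IsUltrametricDist.dist_triangle_max a b c⟩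

/-- Completions are isometric iff the spaces of positive-radius balls are isometric. -/
theorem result (X Y : Type*) [MetricSpace X] [MetricSpace Y] [IsUltrametricDist X]
    [IsUltrametricDist Y] : Nonempty (Completion X ≃ᵢ Completion Y) ↔ Iso X Y := by
  have := cu (X := X)
  have := cu (X := Y)
  have x := dense (Completion.coe_isometry (α := X)) Completion.denseRange_coe
  have y := dense (Completion.coe_isometry (α := Y)) Completion.denseRange_coe
  exact ⟨fun ⟨e⟩ => (x.symm.trans (dense e.isometry e.surjective.denseRange).symm).trans y,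
    fun h => back ((x.trans h).trans y.symm)⟩

end Pool.Agent.Results.MP_856f66_gt.Iff
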